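import Pool.Agent.VU.AL.ChainA
import Pool.Agent.V7.AL.Top

/-!
# VU, block ALPHA: the weights on the top level of the chain with the slack `T`

As `Pool.Agent.V7.AL.N6`; the weights do not depend on `T`.
-/

set_option autoImplicit false

namespace Pool.Agent.VU

open Finset Pool.Agent.V7

private theorem VN6.card_filter (T M c j l ν : ℕ) (p : Kd → Prop) [DecidablePred p] :
    ((cfgT T M c j l ν).filter p).card = ∑ k ∈ (kds M l).filter p, nmbT T M c j l ν k := by
  unfold cfgT
  rw [← Multiset.countP_eq_card_filter]
  have h1 : ∀ s : Finset Kd, Multiset.countP p (∑ k ∈ s, Multiset.replicate (nmbT T M c j l ν k) k) =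
      ∑ k ∈ s, if p k then nmbT T M c j l ν k else 0 := by
    intro s
    induction s using Finset.induction_on with
    | empty => simp
    | insert a s ha ih =>
      rw [sum_insert ha, sum_insert ha, Multiset.countP_add, ih]
      congr 1
      rw [Multiset.countP_eq_card_filter]
      split_ifs with h
      · rw [Multiset.filter_eq_self.2, Multiset.card_replicate]
        intro b hb
        rw [Multiset.eq_of_mem_replicate hb]
        exact h
      · rw [Multiset.filter_eq_nil.2, Multiset.card_zero]
        intro b hb
        rw [Multiset.eq_of_mem_replicate hb]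
        exact h
  rw [h1, sum_filter]

/-- The kinds of degree `2 M - 1` with a given support. -/
private theorem VN6.kinds {M j : ℕ} (hM : 2 ≤ M) (hj : j < M) {S : Finset ℕ}
    (hS : S ⊆ range (2 * M - 1)) {k : Kd} (hk : k ∈ kds M (2 * M - 1)) (hin : k.In M j)
    (hd : dgr M k = 2 * M - 1) (hs : supp M k = S) :
    (k = .ord (2 * M - S.card) (range (2 * M - 1) \ S) ∧ M ≤ S.card ∧ 
      (S.card = M → (S ∩ range j).Nonempty)) ∨
    (S.card = M ∧ ∃ i < j, i ∈ S ∧ k = .sw i (range (2 * M - 1) \ S)) := by
  have hcS : S.card ≤ 2 * M - 1 := by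
    have := card_le_card hS
    rwa [card_range] at this
  rw [mem_kds] at hk
  cases k with
  | ord μ I =>
    obtain ⟨h1, h2, h3⟩ := hk
    have e1 : range (2 * M - 1) \ I = S := hs
    have e2 : range (2 * M - 1) \ S = I := by
      rw [← e1, Finset.sdiff_sdiff_eq_self h3]
    have e3 : 2 * M - μ + I.card = 2 * M - 1 := hd
    have e4 : S.card = 2 * M - 1 - I.card := by
      rw [← e1, card_sdiff_of_subset h3, card_range]
    have e5 : I.card ≤ 2 * M - 1 := by
      have := card_le_card h3
      rwa [card_range] at this
    left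
    rw [e2]
    refine ⟨by
      congr 1
      omega, by omega, fun h4 => ?_⟩
    have e6 : μ = M := by omega
    have e7 : ¬ range j ⊆ I := hin e6
    rw [not_subset] at e7
    obtain ⟨x, hx, hxI⟩ := e7
    refine ⟨x, mem_inter.2 ⟨?_, hx⟩⟩
    rw [← e1, mem_sdiff, mem_range]
    rw [mem_range] at hx
    exact ⟨by omega, hxI⟩
  | sw i I =>
    obtain ⟨h1, h2⟩ := hk
    have h3 : I ⊆ range (2 * M - 1) := fun x hx => by
      have := mem_Ico.1 (h2 hx)
      rw [mem_range]
      omega
    have e1 : range (2 * M - 1) \ I = S := hs
    have e2 : range (2 * M - 1) \ S = I := by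
      rw [← e1, Finset.sdiff_sdiff_eq_self h3]
    have e3 : M + I.card = 2 * M - 1 := hd
    have e4 : S.card = 2 * M - 1 - I.card := by
      rw [← e1, card_sdiff_of_subset h3, card_range]
    have hij : i < j := hin
    right
    refine ⟨by omega, i, hij, ?_, by rw [e2]⟩
    rw [← e1, mem_sdiff, mem_range]
    refine ⟨by omega, fun h4 => ?_⟩
    have := (mem_Ico.1 (h2 h4)).1
    omega

private theorem VN6.nmb_le {T M c j ν : ℕ} {k : Kd} (hd : dgr M k = 2 * M - 1) :
    nmbT T M c j (2 * M - 1) ν k ≤ rhoT T M c k := by
  unfold nmbT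
  split_ifs
  · rw [hd, Nat.sub_self, Nat.choose_zero_right, mul_one]
  · exact Nat.zero_le _

private theorem VN6.sum_le {T M j ν : ℕ} (c : ℕ) (S : Finset ℕ) (Q : Finset Kd)
    (hQ : ∀ k ∈ kds M (2 * M - 1), k.In M j → dgr M k = 2 * M - 1 → supp M k = S → k ∈ Q) :
    ∑ k ∈ (kds M (2 * M - 1)).filter (fun k => dgr M k = 2 * M - 1 ∧ supp M k = S),
      nmbT T M c j (2 * M - 1) ν k ≤ ∑ k ∈ Q, rhoT T M c k := by
  classical
  rw [← sum_filter_ne_zero]
  refine (sum_le_sum fun k hk => ?_).trans
    (sum_le_sum_of_subset (f := fun k => rhoT T M c k) fun k hk => ?_)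
  · rw [mem_filter, mem_filter] at hk
    exact VN6.nmb_le hk.1.2.1
  · rw [mem_filter, mem_filter] at hk
    have hin : k ∈ kds M (2 * M - 1) ∧ k.In M j ∧ 2 * M - 1 ≤ dgr M k := by
      by_contra h2
      exact hk.2 (if_neg h2)
    exact hQ k hk.1.1 hin.2.1 hk.1.2.1 hk.1.2.2

theorem top_weightsT (M j : ℕ) (hM : 2 ≤ M) (hj : j < M) : ∃ (W : ℕ) (w : Finset ℕ → ℕ),
    1 ≤ W ∧ ∑ S ∈ (range (2 * M - 1)).powerset, w S = W ∧
    (∀ S S', w S ≠ 0 → w S' ≠ 0 → (S ∩ S').Nonempty) ∧
    ∀ T : ℕ, ∃ c₀ : ℕ, ∀ c, c₀ ≤ c → ∀ ν, ∀ S ∈ (range (2 * M - 1)).powerset,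
      ((cfgT T M c j (2 * M - 1) ν).filter fun k => dgr M k = 2 * M - 1 ∧ supp M k = S).card * W ≤
        w S * c ^ S.card := by
  classical
  set R := range (2 * M - 1) with hR
  set C := (2 * M - 1).choose M with hC
  set B := C + 2 ^ (2 * M - 1) with hB
  have hCpos : 1 ≤ C := Nat.choose_pos (by omega)
  have hBpos : 1 ≤ B := hCpos.trans (Nat.le_add_right _ _)
  have hRc : R.card = 2 * M - 1 := card_range _
  -- the weights off `R`
  set w' : Finset ℕ → ℕ := fun S => if S.card = M ∧ (S ∩ range j).Nonempty then B + 1 else
    if M < S.card then 1 else 0 with hw'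
  set rest := ∑ S ∈ R.powerset.erase R, w' S with hrest
  have hbound : rest + 1 ≤ C * B := by
    have h1 : rest ≤ ∑ S ∈ R.powerset.erase R,
        ((if S.card = M ∧ (S ∩ range j).Nonempty then B + 1 else 0) + 1) := by
      rw [hrest]
      refine sum_le_sum fun S _ => ?_
      simp only [hw']
      split_ifs <;> omega
    rw [sum_add_distrib, sum_const, smul_eq_mul, mul_one, card_erase_of_mem (mem_powerset_self R),
      card_powerset, hRc] at h1
    have h2 : ∑ S ∈ R.powerset.erase R,
        (if S.card = M ∧ (S ∩ range j).Nonempty then B + 1 else 0) ≤ (C - 1) * (B + 1) := by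
      rw [← sum_filter, sum_const, smul_eq_mul]
      refine Nat.mul_le_mul_right _ ?_
      have h3 : (R.powerset.erase R).filter (fun S => S.card = M ∧ (S ∩ range j).Nonempty) ⊆
          (powersetCard M R).erase (Ico (M - 1) (2 * M - 1)) := by
        intro S hS
        rw [mem_filter, mem_erase, mem_powerset] at hS
        rw [mem_erase, mem_powersetCard]
        refine ⟨?_, hS.1.2, hS.2.1⟩
        rintro rfl
        obtain ⟨x, hx⟩ := hS.2.2
        rw [mem_inter, mem_Ico, mem_range] at hx
        omega
      have h4 := card_le_card h3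
      rw [card_erase_of_mem, card_powersetCard, hRc] at h4
      · exact h4
      · rw [mem_powersetCard, Nat.card_Ico]
        refine ⟨fun x hx => ?_, by omega⟩
        rw [mem_Ico] at hx
        rw [hR, mem_range]
        exact hx.2
    have h5 : 1 ≤ 2 ^ (2 * M - 1) := Nat.one_le_two_pow
    obtain ⟨C', hC'⟩ : ∃ C', C = C' + 1 := ⟨C - 1, by omega⟩
    have h6 : (C - 1) * (B + 1) + B = C * B + (C - 1) := by
      rw [hC']
      simp only [Nat.add_sub_cancel]
      ring
    omega
  -- the weights
  set w : Finset ℕ → ℕ := fun S => if S ⊆ R then (if S = R then C * B - rest else w' S) else 0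
    with hw
  refine ⟨C * B, w, Nat.mul_pos hCpos hBpos, ?_, ?_, ?_⟩
  · rw [← add_sum_erase _ _ (mem_powerset_self R)]
    have h1 : ∑ S ∈ R.powerset.erase R, w S = rest := by
      rw [hrest]
      refine sum_congr rfl fun S hS => ?_
      rw [mem_erase, mem_powerset] at hS
      simp only [hw]
      rw [if_pos hS.2, if_neg hS.1]
    rw [h1]
    have h2 : w R = C * B - rest := by
      simp only [hw]
      rw [if_pos (Subset.refl R), if_pos trivial]
    rw [h2]
    omega
  · have hne : ∀ S, w S ≠ 0 → S ⊆ R ∧ M ≤ S.card := by
      intro S hS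
      simp only [hw] at hS
      by_cases h1 : S ⊆ R
      · refine ⟨h1, ?_⟩
        rw [if_pos h1] at hS
        by_cases h2 : S = R
        · rw [h2, hRc]
          omega
        · rw [if_neg h2] at hS
          simp only [hw'] at hS
          split_ifs at hS with h3 h4
          · exact h3.1.ge
          · exact h4.le
          · exact absurd rfl hS
      · rw [if_neg h1] at hS
        exact absurd rfl hS
    intro S S' hS hS'
    obtain ⟨h1, h2⟩ := hne S hS
    obtain ⟨h3, h4⟩ := hne S' hS'
    have h5 := card_union_add_card_inter S S'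
    have h6 := card_le_card (union_subset h1 h3)
    rw [hRc] at h6
    rw [← card_pos]
    omega
  · intro T
    refine ⟨C * B + C * (T * M) * B, fun c hc ν S hS => ?_⟩
    rw [mem_powerset] at hS
    have hcpos : 1 ≤ c := by
      have : 1 ≤ C * B := Nat.mul_pos hCpos hBpos
      omega
    rw [VN6.card_filter]
    -- the weight of `S`
    have hwS : M < S.card → 1 ≤ w S := by
      intro h1
      simp only [hw]
      rw [if_pos hS]
      split_ifs with h2
      · omega
      · simp only [hw']
        split_ifs
        · omega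
        · exact le_rfl
    rcases Nat.lt_trichotomy S.card M with h1 | h1 | h1
    · have h2 := VN6.sum_le (T := T) (M := M) (j := j) (ν := ν) c S ∅ (by
        intro k hk hin hd hs
        rcases VN6.kinds hM hj hS hk hin hd hs with h2 | h2
        · omega
        · omega)
      rw [sum_empty, Nat.le_zero] at h2
      rw [h2, zero_mul]
      exact Nat.zero_le _
    · by_cases hmeet : (S ∩ range j).Nonempty
      · have hSR : S ≠ R := by
          intro h2
          rw [h2, hRc] at h1
          omega
        have e1 : w S = B + 1 := by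
          simp only [hw, hw']
          rw [if_pos hS, if_neg hSR, if_pos ⟨h1, hmeet⟩]
        have e2 := VN6.sum_le (T := T) (M := M) (j := j) (ν := ν) c S
          (insert (Kd.ord M (R \ S)) ((range j).image fun i => Kd.sw i (R \ S))) (by
            intro k hk hin hd hs
            rcases VN6.kinds hM hj hS hk hin hd hs with ⟨h2, -, -⟩ | ⟨-, i, hi, -, h2⟩
            · rw [h2, mem_insert]
              left
              congr 1
              omega
            · rw [h2, mem_insert, mem_image]
              exact Or.inr ⟨i, mem_range.2 hi, rfl⟩)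
        have e3 : ∑ k ∈ insert (Kd.ord M (R \ S)) ((range j).image fun i => Kd.sw i (R \ S)),
            rhoT T M c k ≤ c ^ M / C + T * c ^ (M - 1) + j * (T * c ^ (M - 1)) := by
          rw [sum_insert]
          · refine add_le_add ?_ ?_
            · show (if M = M then c ^ M / C + T * c ^ (M - 1) else 1) ≤ _
              rw [if_pos rfl]
            · refine (sum_le_card_nsmul _ _ (T * c ^ (M - 1)) ?_).trans ?_
              · intro k hk
                rw [mem_image] at hk
                obtain ⟨i, -, rfl⟩ := hk
                exact le_rfl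
              · rw [smul_eq_mul]
                refine Nat.mul_le_mul_right _ (card_image_le.trans ?_)
                rw [card_range]
          · intro h2
            rw [mem_image] at h2
            obtain ⟨i, -, h3⟩ := h2
            cases h3
        rw [e1, h1]
        have e4 : c ^ M = c * c ^ (M - 1) := by
          rw [← pow_succ']
          congr 1
          omega
        have e5 : c ^ M / C * C ≤ c ^ M := Nat.div_mul_le_self _ _
        have e6 : C * (T * M) * B ≤ c := by omega
        have e7 : (c ^ M / C + T * c ^ (M - 1) + j * (T * c ^ (M - 1))) * (C * B) ≤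
            (B + 1) * c ^ M := by
          have e8 : (c ^ M / C + T * c ^ (M - 1) + j * (T * c ^ (M - 1))) * (C * B) =
              (c ^ M / C * C) * B + ((T + T * j) * C * B) * c ^ (M - 1) := by ring
          have e9 : ((T + T * j) * C * B) ≤ c := by
            refine le_trans ?_ e6
            have : (T + T * j) ≤ T * M := by
              have h8 : T * (1 + j) ≤ T * M := Nat.mul_le_mul_left _ (by omega)
              have h9 : T * (1 + j) = T + T * j := by ring
              omega
            calc (T + T * j) * C * B ≤ (T * M) * C * B :=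
                  Nat.mul_le_mul_right _ (Nat.mul_le_mul_right _ this)
              _ = C * (T * M) * B := by ring
          rw [e8]
          calc (c ^ M / C * C) * B + ((T + T * j) * C * B) * c ^ (M - 1) ≤
              c ^ M * B + c * c ^ (M - 1) :=
                add_le_add (Nat.mul_le_mul_right _ e5) (Nat.mul_le_mul_right _ e9)
            _ = (B + 1) * c ^ M := by
                rw [← e4]
                ring
        exact (Nat.mul_le_mul_right _ (e2.trans e3)).trans e7
      · have h2 := VN6.sum_le (T := T) (M := M) (j := j) (ν := ν) c S ∅ (by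
          intro k hk hin hd hs
          rcases VN6.kinds hM hj hS hk hin hd hs with ⟨-, -, h2⟩ | ⟨-, i, hi, hiS, -⟩
          · exact absurd (h2 h1) hmeet
          · exact absurd ⟨i, mem_inter.2 ⟨hiS, mem_range.2 hi⟩⟩ hmeet)
        rw [sum_empty, Nat.le_zero] at h2
        rw [h2, zero_mul]
        exact Nat.zero_le _
    · have h2 := VN6.sum_le (T := T) (M := M) (j := j) (ν := ν) c S {Kd.ord (2 * M - S.card) (R \ S)} (by
        intro k hk hin hd hs
        rcases VN6.kinds hM hj hS hk hin hd hs with ⟨h2, -, -⟩ | ⟨h2, -⟩
        · rw [mem_singleton]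
          exact h2
        · omega)
      rw [sum_singleton] at h2
      have h3 : rhoT T M c (Kd.ord (2 * M - S.card) (R \ S)) = 1 := by
        show (if 2 * M - S.card = M then c ^ M / C + T * c ^ (M - 1) else 1) = 1
        rw [if_neg (by omega)]
      rw [h3] at h2
      have h4 : C * B ≤ c := by omega
      have h5 : c ≤ c ^ S.card := by
        calc c = c ^ 1 := (pow_one c).symm
          _ ≤ c ^ S.card := Nat.pow_le_pow_right hcpos (by omega)
      calc (∑ k ∈ (kds M (2 * M - 1)).filter (fun k => dgr M k = 2 * M - 1 ∧ supp M k = S),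
            nmbT T M c j (2 * M - 1) ν k) * (C * B) ≤ 1 * (C * B) := Nat.mul_le_mul_right _ h2
        _ ≤ 1 * c ^ S.card := Nat.mul_le_mul_left _ (h4.trans h5)
        _ ≤ w S * c ^ S.card := Nat.mul_le_mul_right _ (hwS h1)

end Pool.Agent.VU
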