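import Pool.Agent.VU.AL.N1
import Pool.Agent.VU.AL.N6
import Pool.Agent.V7.AL.Chain

/-!
# VU, block ALPHA: the chain with the slack `T`

As `Pool.Agent.V7.AL.Chain`; the divisibility of `c` does not depend on `T`.
-/

set_option autoImplicit false

namespace Pool.Agent.VU

open Finset Pool.Agent.H51.TB Pool.Agent.V7 Pool.Agent.V7.ST

/-- The virtual dimensions of the chainT grow. -/
theorem chain_lowT (T M j : ℕ) (hM : 2 ≤ M) (hj : j < M) : ∀ i, i + j + 1 ≤ 2 * M →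
    ∃ δ : ℝ, 0 < δ ∧ ∃ K c₀ : ℕ, ∀ c, c₀ ≤ c → 1 ≤ c → (2 * M - 1).choose M ∣ c → ∀ r < c,
      ∀ ν, K ≤ ν → δ * (c : ℝ) ^ (2 * M - 1) * (ν : ℝ) ^ i ≤
        ((vd M c (2 * M - 1 - i) (c * ν + r) (cfgT T M c j (2 * M - 1 - i) ν) : ℤ) : ℝ) := by
  intro i
  induction i with
  | zero =>
    intro _
    obtain ⟨c₀, h⟩ := top_lowT T M j hM hj
    have hC : 0 < (2 * M - 1).choose M := Nat.choose_pos (by omega)
    have hC' : (0 : ℝ) < ((2 * M - 1).choose M : ℝ) := by exact_mod_cast hC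
    refine ⟨1 / (2 * ((2 * M - 1).choose M : ℝ)), by positivity, 2 * M, c₀, ?_⟩
    intro c hc hc1 hdiv r hr ν hν
    have h1 := h c hc hdiv (c * ν + r) ν (by
      have h2 : (2 * M - 1) * c ≤ ν * c := Nat.mul_le_mul_right c (by omega)
      have h3 : ν * c = c * ν := mul_comm _ _
      omega)
    have h2 : ((c : ℝ) ^ (2 * M - 1)) ≤ 2 * ((2 * M - 1).choose M : ℝ) *
        ((vd M c (2 * M - 1) (c * ν + r) (cfgT T M c j (2 * M - 1) ν) : ℤ) : ℝ) := by
      exact_mod_cast h1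
    rw [Nat.sub_zero, pow_zero, mul_one, one_div, inv_mul_le_iff₀ (by positivity)]
    exact h2
  | succ i ih =>
    intro hi
    obtain ⟨δ, hδ, K, c₀, h⟩ := ih (by omega)
    set l := 2 * M - 1 - (i + 1) with hl
    have hl1 : 2 * M - 1 - i = l + 1 := by omega
    rw [hl1] at h
    set K' := max K (2 * M) with hK'
    have hKK' : K ≤ K' := le_max_left _ _
    have hMK' : 2 * M ≤ K' := le_max_right _ _
    obtain ⟨B, hB⟩ : ∃ B : ℕ, B = (kds M l).card * ((T + 1) * 2 ^ K') * (K' + 1 + M) ^ (M - 1) :=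
      ⟨_, rfl⟩
    obtain ⟨Q, hQ⟩ := exists_nat_ge (2 * (B : ℝ) / δ)
    refine ⟨δ / (2 * 4 ^ (i + 1)), by positivity, 2 * K' + 2 + 4 * (Q + 1), c₀, ?_⟩
    intro c hc hc1 hdiv r hr ν hν
    have hcp : (0 : ℝ) < (c : ℝ) := by exact_mod_cast hc1
    have h1 := growth
      (fun ν => ((vd M c l (c * ν + r) (cfgT T M c j l ν) : ℤ) : ℝ))
      (fun ν => ((vd M c (l + 1) (c * ν + r) (cfgT T M c j (l + 1) ν) : ℤ) : ℝ)) K' i
      (δ * (c : ℝ) ^ (2 * M - 1)) (B * (c : ℝ) ^ (2 * M - 1)) (by positivity) ?_ ?_ ?_ ν (by omega)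
    · refine le_trans ?_ h1
      have h2 : (1 : ℝ) ≤ (ν : ℝ) / 4 := by
        rw [le_div_iff₀ (by norm_num)]
        exact_mod_cast (by omega : 1 * 4 ≤ ν)
      have h3 : 2 * (B : ℝ) / δ ≤ (ν : ℝ) / 4 := by
        refine hQ.trans ?_
        rw [le_div_iff₀ (by norm_num)]
        exact_mod_cast (by omega : Q * 4 ≤ ν)
      have h4 : (ν : ℝ) / 4 ≤ ((ν : ℝ) / 4) ^ (i + 1) := le_self_pow₀ h2 (by omega)
      have h5 : (B : ℝ) ≤ δ / 2 * ((ν : ℝ) / 4) ^ (i + 1) := by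
        have h6 := h3.trans h4
        rw [div_le_iff₀ hδ] at h6
        linarith
      have h6 : (0 : ℝ) < (c : ℝ) ^ (2 * M - 1) := by positivity
      have h7 := mul_le_mul_of_nonneg_left h5 h6.le
      have h8 : δ / (2 * 4 ^ (i + 1)) * (c : ℝ) ^ (2 * M - 1) * (ν : ℝ) ^ (i + 1) =
          (c : ℝ) ^ (2 * M - 1) * (δ / 2 * ((ν : ℝ) / 4) ^ (i + 1)) := by
        rw [div_pow]
        field_simp
      rw [h8]
      have h9 : δ * (c : ℝ) ^ (2 * M - 1) * ((ν : ℝ) / 4) ^ (i + 1) =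
          2 * ((c : ℝ) ^ (2 * M - 1) * (δ / 2 * ((ν : ℝ) / 4) ^ (i + 1))) := by ring
      rw [h9]
      linarith
    · intro ν' hν'
      have h2 : (l + 1) * c + 1 ≤ c * (ν' + 1) + r := by
        have h3 : (l + 2) * c ≤ (ν' + 1) * c := Nat.mul_le_mul_right c (by omega)
        have h4 : (l + 2) * c = (l + 1) * c + c := by ring
        have h5 : (ν' + 1) * c = c * (ν' + 1) := mul_comm _ _
        omega
      have h3 := vd_chainT (T := T) (M := M) (j := j) (l := l) (ν := ν') (by omega) (by omega) (by omega) h2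
      have h4 : c * (ν' + 1) + r - c = c * ν' + r := by
        rw [mul_add, mul_one]
        omega
      rw [h4] at h3
      show ((vd M c l (c * (ν' + 1) + r) (cfgT T M c j l (ν' + 1)) : ℤ) : ℝ) =
        ((vd M c l (c * ν' + r) (cfgT T M c j l ν') : ℤ) : ℝ) +
          ((vd M c (l + 1) (c * (ν' + 1) + r) (cfgT T M c j (l + 1) (ν' + 1)) : ℤ) : ℝ)
      rw [h3]
      push_cast
      ring
    · intro ν' hν'
      exact h c hc hc1 hdiv r hr ν' (hKK'.trans hν')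
    · have h2 := vd_lowT (T := T) (M := M) (c := c) (j := j) (l := l) (ν := K') (n := c * K' + r) (by omega)
        hc1 (by
          rw [mul_add, mul_one]
          omega)
      rw [← hB] at h2
      have h3 : ((-((B * c ^ (2 * M - 1) : ℕ) : ℤ) : ℤ) : ℝ) ≤
          ((vd M c l (c * K' + r) (cfgT T M c j l K') : ℤ) : ℝ) := by exact_mod_cast h2
      push_cast at h3
      exact h3

/-- There is room for the window lemma. -/
theorem chain_roomT (T M j : ℕ) (hM : 2 ≤ M) (hj : j < M) (i : ℕ) (hi : i + 1 + j + 1 ≤ 2 * M) :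
    ∃ K₀, ∀ K, K₀ ≤ K → ∃ c₀, ∀ c, c₀ ≤ c → 1 ≤ c → (2 * M - 1).choose M ∣ c → ∀ r < c,
      ((dz M c (2 * M - 1 - (i + 1)) (c * K + r) + (kds M (2 * M - 1 - (i + 1))).card *
        ((K + 1 + M) ^ (M - 1) * c ^ (M - 1)) * ((K + 1 + M) ^ (M - 1) * c ^ (M - 1)) : ℕ) : ℤ) <
        vd M c (2 * M - 1 - (i + 1)) (c * K + r) (cfgT T M c j (2 * M - 1 - (i + 1)) K) := by
  obtain ⟨δ, hδ, K₁, c₁, h⟩ := chain_lowT T M j hM hj (i + 1) (by omega)
  set l := 2 * M - 1 - (i + 1) with hl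
  obtain ⟨Q, hQ⟩ := exists_nat_gt (4 * (M : ℝ) * 2 ^ i / δ)
  refine ⟨K₁ + Q + 1, fun K hK => ?_⟩
  obtain ⟨D, hD⟩ : ∃ D : ℕ, D = (kds M l).card * (K + 1 + M) ^ (M - 1) * (K + 1 + M) ^ (M - 1) :=
    ⟨_, rfl⟩
  obtain ⟨Q', hQ'⟩ := exists_nat_gt (2 * (D : ℝ) / δ)
  refine ⟨c₁ + Q' + 1, fun c hc hc1 hdiv r hr => ?_⟩
  have h1 := h c (by omega) hc1 hdiv r hr K (by omega)
  have hcp : (0 : ℝ) < (c : ℝ) := by exact_mod_cast hc1
  have hKp : (1 : ℝ) ≤ (K : ℝ) := by exact_mod_cast (by omega : 1 ≤ K)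
  have hcpow : (0 : ℝ) < (c : ℝ) ^ (2 * M - 1) := by positivity
  -- the number `dz`
  have h2 := dz_le M c l (c * K + r) hc1 (by omega)
  have e1 : 2 * M - 2 - l = i := by omega
  rw [e1] at h2
  have h3 : dz M c l (c * K + r) ≤ 2 * M * 2 ^ i * (c ^ (2 * M - 1) * K ^ i) := by
    refine h2.trans ?_
    have h4 : c * K + r ≤ 2 * (c * K) := by
      have h5 : c * 1 ≤ c * K := Nat.mul_le_mul_left c (by omega)
      omega
    calc c ^ l * (l * c) * (c * K + r) ^ i ≤ c ^ l * (2 * M * c) * (2 * (c * K)) ^ i :=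
          Nat.mul_le_mul (Nat.mul_le_mul_left _ (Nat.mul_le_mul_right c (by omega)))
            (Nat.pow_le_pow_left h4 i)
      _ = 2 * M * 2 ^ i * ((c ^ l * c * c ^ i) * K ^ i) := by
          rw [mul_pow, mul_pow]
          ring
      _ = 2 * M * 2 ^ i * (c ^ (2 * M - 1) * K ^ i) := by
          rw [← pow_succ, ← pow_add]
          congr 4
          omega
  have h4 : (dz M c l (c * K + r) : ℝ) ≤ 2 * M * 2 ^ i * ((c : ℝ) ^ (2 * M - 1) * (K : ℝ) ^ i) := by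
    exact_mod_cast h3
  have h5 : 2 * (M : ℝ) * 2 ^ i < δ / 2 * K := by
    have h6 : 4 * (M : ℝ) * 2 ^ i / δ < K := hQ.trans_le (by exact_mod_cast (by omega : Q ≤ K))
    rw [div_lt_iff₀ hδ] at h6
    linarith
  have hKi : (0 : ℝ) < (K : ℝ) ^ i := by positivity
  have h6 : (dz M c l (c * K + r) : ℝ) < δ / 2 * (c : ℝ) ^ (2 * M - 1) * (K : ℝ) ^ (i + 1) := by
    refine h4.trans_lt ?_
    have h7 := mul_lt_mul_of_pos_right h5 (mul_pos hcpow hKi)
    calc _ < δ / 2 * K * ((c : ℝ) ^ (2 * M - 1) * (K : ℝ) ^ i) := h7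
      _ = _ := by ring
  -- the window
  have h7 : (kds M l).card * ((K + 1 + M) ^ (M - 1) * c ^ (M - 1)) *
      ((K + 1 + M) ^ (M - 1) * c ^ (M - 1)) = D * c ^ (2 * M - 2) := by
    have h8 : c ^ (2 * M - 2) = c ^ (M - 1) * c ^ (M - 1) := by
      rw [← pow_add]
      congr 1
      omega
    rw [h8, hD]
    ring
  have h8 : (D : ℝ) * (c : ℝ) ^ (2 * M - 2) ≤ δ / 2 * (c : ℝ) ^ (2 * M - 1) * (K : ℝ) ^ (i + 1) := by
    have h9 : 2 * (D : ℝ) / δ < c := hQ'.trans_le (by exact_mod_cast (by omega : Q' ≤ c))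
    rw [div_lt_iff₀ hδ] at h9
    have h10 : (c : ℝ) ^ (2 * M - 1) = c * (c : ℝ) ^ (2 * M - 2) := by
      rw [← pow_succ']
      congr 1
      omega
    have h11 : (1 : ℝ) ≤ (K : ℝ) ^ (i + 1) := one_le_pow₀ hKp
    have h12 : (0 : ℝ) < (c : ℝ) ^ (2 * M - 2) := by positivity
    calc (D : ℝ) * (c : ℝ) ^ (2 * M - 2) ≤ (δ / 2 * c) * (c : ℝ) ^ (2 * M - 2) :=
          mul_le_mul_of_nonneg_right (by linarith) h12.le
      _ = δ / 2 * (c : ℝ) ^ (2 * M - 1) * 1 := by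
          rw [h10]
          ring
      _ ≤ _ := mul_le_mul_of_nonneg_left h11 (by positivity)
  rw [h7]
  have h9 : (((dz M c l (c * K + r) + D * c ^ (2 * M - 2) : ℕ) : ℤ) : ℝ) <
      ((vd M c l (c * K + r) (cfgT T M c j l K) : ℤ) : ℝ) := by
    push_cast
    calc (dz M c l (c * K + r) : ℝ) + D * (c : ℝ) ^ (2 * M - 2) <
        δ / 2 * (c : ℝ) ^ (2 * M - 1) * (K : ℝ) ^ (i + 1) +
          δ / 2 * (c : ℝ) ^ (2 * M - 1) * (K : ℝ) ^ (i + 1) := by linarith
      _ = δ * (c : ℝ) ^ (2 * M - 1) * (K : ℝ) ^ (i + 1) := by ring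
      _ ≤ _ := h1
  exact_mod_cast h9

/-- The chainT. -/
theorem chainT (M j : ℕ) (hM : 2 ≤ M) (hj : j < M) : ∃ L : ℕ, 1 ≤ L ∧ ∀ T : ℕ, 3 ≤ T →
    ∃ c₀ : ℕ, ∀ c, c₀ ≤ c → L ∣ c → ∃ K, ∀ r < c, ∀ ν, K ≤ ν →
      (gM (LS M (blk c (c * ν + r)) j) (cfgT T M c j j ν) : ℤ) ≤
        vd M c j (c * ν + r) (cfgT T M c j j ν) := by
  obtain ⟨W, w, hW, hsum, hint, hcnt'⟩ := top_weightsT M j hM hj
  have hC : 1 ≤ (2 * M - 1).choose M := Nat.choose_pos (by omega)
  refine ⟨W.factorial * (2 * M - 1).choose M, Nat.mul_pos (Nat.factorial_pos W) hC,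
    fun T _ => ?_⟩
  obtain ⟨c₂, hcnt⟩ := hcnt' T
  obtain ⟨K₀, hK₀⟩ := unif (fun i K c => 1 ≤ c → (2 * M - 1).choose M ∣ c → ∀ r < c,
      ((dz M c (2 * M - 1 - (i + 1)) (c * K + r) + (kds M (2 * M - 1 - (i + 1))).card *
        ((K + 1 + M) ^ (M - 1) * c ^ (M - 1)) * ((K + 1 + M) ^ (M - 1) * c ^ (M - 1)) : ℕ) : ℤ) <
        vd M c (2 * M - 1 - (i + 1)) (c * K + r) (cfgT T M c j (2 * M - 1 - (i + 1)) K))
    (2 * M - 1 - j) fun i hi => chain_roomT T M j hM hj i (by omega)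
  set K := max K₀ (2 * M) with hK
  obtain ⟨c₁, hc₁⟩ := hK₀ K (le_max_left _ _)
  have hMK : 2 * M ≤ K := le_max_right _ _
  refine ⟨c₁ + c₂ + 1, fun c hc hdiv => ⟨K, ?_⟩⟩
  intro r hr
  suffices key : ∀ ν, K ≤ ν → ∀ i, i + j + 1 ≤ 2 * M →
      (gM (LS M (blk c (c * ν + r)) (2 * M - 1 - i)) (cfgT T M c j (2 * M - 1 - i) ν) : ℤ) ≤
        vd M c (2 * M - 1 - i) (c * ν + r) (cfgT T M c j (2 * M - 1 - i) ν) by
    intro ν hν
    have h := key ν hν (2 * M - 1 - j) (by omega)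
    rwa [show 2 * M - 1 - (2 * M - 1 - j) = j by omega] at h
  have hc1 : 1 ≤ c := by omega
  have hdW : W.factorial ∣ c := (Dvd.intro _ rfl).trans hdiv
  have hdC : (2 * M - 1).choose M ∣ c := (Dvd.intro_left _ rfl).trans hdiv
  -- the top level
  have htop : ∀ ν, K ≤ ν → (gM (LS M (blk c (c * ν + r)) (2 * M - 1))
      (cfgT T M c j (2 * M - 1) ν) : ℤ) ≤ vd M c (2 * M - 1) (c * ν + r) (cfgT T M c j (2 * M - 1) ν) := by
    intro ν hν
    refine top_level hM hc1 ?_ _ (fun k hk => ⟨(mem_cfgT hk).1, (mem_cfgT hk).2.2⟩) W hW hdW w hsum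
      hint fun S hS => hcnt c (by omega) ν S hS
    have h2 : (2 * M - 1) * c ≤ ν * c := Nat.mul_le_mul_right c (by omega)
    have h3 : ν * c = c * ν := mul_comm _ _
    omega
  intro ν hν
  induction ν, hν using Nat.le_induction with
  | base =>
    intro i hi
    rcases i with _ | i
    · exact htop K le_rfl
    · have hlr : (2 * M - 1 - (i + 1) + 1) * c ≤ c * K + r := by
        have h2 : (2 * M - 1 - (i + 1) + 1) * c ≤ K * c := Nat.mul_le_mul_right c (by omega)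
        have h3 : K * c = c * K := mul_comm _ _
        omega
      refine base_exact hM hc1 hlr _ (fun k hk => ⟨(mem_cfgT hk).1, (mem_cfgT hk).2.2⟩)
        ((K + 1 + M) ^ (M - 1) * c ^ (M - 1)) (fun k hk => ?_)
        (hc₁ c (by omega) i (by omega) hc1 hdC r hr)
      refine wt_le (by omega) hc1 ?_ (mem_cfgT hk).1
      rw [mul_add, mul_one]
      omega
  | succ ν hν ih =>
    intro i
    induction i with
    | zero => exact fun _ => htop (ν + 1) (by omega)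
    | succ i ihi =>
      intro hi
      have h1 := ih (i + 1) hi
      have h2 := ihi (by omega)
      set l := 2 * M - 1 - (i + 1) with hl
      have hl1 : 2 * M - 1 - i = l + 1 := by omega
      rw [hl1] at h2
      have h3 : (l + 1) * c + 1 ≤ c * (ν + 1) + r := by
        have h3 : (l + 2) * c ≤ (ν + 1) * c := Nat.mul_le_mul_right c (by omega)
        have h4 : (l + 2) * c = (l + 1) * c + c := by ring
        have h5 : (ν + 1) * c = c * (ν + 1) := mul_comm _ _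
        omega
      have h4 : c * (ν + 1) + r - c = c * ν + r := by
        rw [mul_add, mul_one]
        omega
      have h5 := gM_tr M c l (c * (ν + 1) + r) (by omega) hc1 (by omega) (cfgT T M c j l ν)
        (cfgT T M c j l (ν + 1) - cfgT T M c j l ν) fun k hk => (mem_cfgT hk).1
      rw [cfgT_step (by omega) (by omega), add_tsub_cancel_of_le cfgT_mono, h4] at h5
      have h6 := vd_chainT (T := T) (M := M) (c := c) (j := j) (l := l) (ν := ν) (by omega) (by omega)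
        (by omega) h3
      rw [h4] at h6
      rw [h6]
      have h7 : (gM (LS M (blk c (c * (ν + 1) + r)) l) (cfgT T M c j l (ν + 1)) : ℤ) ≤
          (gM (LS M (blk c (c * ν + r)) l) (cfgT T M c j l ν) : ℤ) +
            (gM (LS M (blk c (c * (ν + 1) + r)) (l + 1)) (cfgT T M c j (l + 1) (ν + 1)) : ℤ) := by
        exact_mod_cast h5
      linarith

end Pool.Agent.VU
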