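import Pool.Agent.VU.KDefs
import Pool.Agent.V7.AL.ChainA

/-!
# VU, block ALPHA, the chain with the slack `T`: the numbers

As `Pool.Agent.V7.AL.ChainA`.
-/

set_option autoImplicit false

namespace Pool.Agent.VU

open Finset Pool.Agent.H51.TB Pool.Agent.V7 Pool.Agent.V7.ST

theorem nmbT_pos {T M c j l ν : ℕ} {k : Kd} (h : k ∈ kds M l) (h' : k.In M j) (h'' : l ≤ dgr M k) :
    nmbT T M c j l ν k = rhoT T M c k * (ν - (l - j)).choose (dgr M k - l) := if_pos ⟨h, h', h''⟩

theorem nmbT_neg {T M c j l ν : ℕ} {k : Kd} (h : ¬ (k ∈ kds M l ∧ k.In M j ∧ l ≤ dgr M k)) :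
    nmbT T M c j l ν k = 0 := if_neg h

theorem nmbT_of_not {T M c j l ν : ℕ} {k : Kd} (h : k ∉ kds M l) : nmbT T M c j l ν k = 0 :=
  if_neg fun h1 => h h1.1

theorem count_cfgT (T M c j l ν : ℕ) (k : Kd) : (cfgT T M c j l ν).count k = nmbT T M c j l ν k := by
  unfold cfgT
  rw [Multiset.count_sum']
  simp only [Multiset.count_replicate]
  rw [Finset.sum_ite_eq']
  split_ifs with h
  · rfl
  · exact (nmbT_of_not h).symm

theorem mem_cfgT {T M c j l ν : ℕ} {k : Kd} (h : k ∈ cfgT T M c j l ν) :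
    k.Ok M l ∧ k.In M j ∧ l ≤ dgr M k := by
  have h1 := Multiset.count_pos.2 h
  rw [count_cfgT] at h1
  unfold nmbT at h1
  split_ifs at h1 with h2
  · exact ⟨mem_kds.1 h2.1, h2.2.1, h2.2.2⟩
  · exact absurd h1 (lt_irrefl 0)

theorem rhoT_del {T M c l : ℕ} {k : Kd} : rhoT T M c (k.del l) = rhoT T M c k := by
  cases k <;> rfl

theorem nmbT_add {T M c j l ν : ℕ} {k : Kd} (hjl : j ≤ l) (h : l ∈ k.ix) :
    nmbT T M c j (l + 1) (ν + 1) k = nmbT T M c j l ν (k.del l) := by
  have h1 := dgr_del (M := M) h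
  have h4 := mem_kds_del (M := M) h
  have h5 := In_del (M := M) hjl (k := k)
  by_cases h2 : k.del l ∈ kds M l ∧ (k.del l).In M j ∧ l ≤ dgr M (k.del l)
  · rw [nmbT_pos (h4.2 h2.1) (h5.1 h2.2.1) (by omega), nmbT_pos h2.1 h2.2.1 h2.2.2, rhoT_del]
    congr 2
    · omega
    · omega
  · rw [nmbT_neg h2, nmbT_neg fun h3 => h2 ⟨h4.1 h3.1, h5.2 h3.2.1, by omega⟩]

theorem nmbT_off {T M c j l ν : ℕ} {k : Kd} (hjl : j ≤ l) (hν : l ≤ ν + j) (h : l ∉ k.ix) :
    nmbT T M c j (l + 1) (ν + 1) k + nmbT T M c j l ν k = nmbT T M c j l (ν + 1) k := by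
  by_cases h0 : k.In M j
  · have h6 := mem_kds_off hjl h0 h
    by_cases h1 : k ∈ kds M l
    · have e1 : ν + 1 - (l - j) = (ν - (l - j)) + 1 := by omega
      have e2 : ν + 1 - (l + 1 - j) = ν - (l - j) := by omega
      rcases Nat.lt_trichotomy (dgr M k) l with h2 | h2 | h2
      · rw [nmbT_neg fun h3 => absurd h3.2.2 (by omega), nmbT_neg fun h3 => absurd h3.2.2 (by omega),
          nmbT_neg fun h3 => absurd h3.2.2 (by omega)]
      · rw [nmbT_neg fun h3 => absurd h3.2.2 (by omega), nmbT_pos h1 h0 (by omega),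
          nmbT_pos h1 h0 (by omega), h2, Nat.sub_self, Nat.choose_zero_right,
          Nat.choose_zero_right, zero_add]
      · rw [nmbT_pos (h6.2 h1) h0 (by omega), nmbT_pos h1 h0 (by omega), nmbT_pos h1 h0 (by omega),
          e1, e2]
        have e3 : dgr M k - l = (dgr M k - (l + 1)) + 1 := by omega
        rw [e3, Nat.choose_succ_succ, mul_add]
    · rw [nmbT_neg fun h3 => h1 (h6.1 h3.1), nmbT_neg fun h3 => h1 h3.1, nmbT_neg fun h3 => h1 h3.1]
  · rw [nmbT_neg fun h3 => h0 h3.2.1, nmbT_neg fun h3 => h0 h3.2.1, nmbT_neg fun h3 => h0 h3.2.1]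

theorem nmbT_mono {T M c j l ν : ℕ} {k : Kd} : nmbT T M c j l ν k ≤ nmbT T M c j l (ν + 1) k := by
  unfold nmbT
  split_ifs
  · exact Nat.mul_le_mul_left _ (Nat.choose_le_choose _ (by omega))
  · exact le_rfl

theorem cfgT_mono {T M c j l ν : ℕ} : cfgT T M c j l ν ≤ cfgT T M c j l (ν + 1) := by
  rw [Multiset.le_iff_count]
  intro k
  rw [count_cfgT, count_cfgT]
  exact nmbT_mono

/-- Trace and residual of a configuration of the chain. -/
theorem cfgT_step {T M c j l ν : ℕ} (hjl : j ≤ l) (hν : l ≤ ν + j) :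
    (cfgT T M c j l ν).map (Kd.add l) + (cfgT T M c j l (ν + 1) - cfgT T M c j l ν) =
      cfgT T M c j (l + 1) (ν + 1) := by
  rw [Multiset.ext]
  intro k
  rw [Multiset.count_add, Multiset.count_sub, count_cfgT, count_cfgT, count_cfgT]
  have h1 : ((cfgT T M c j l ν).map (Kd.add l)).count k =
      if l ∈ k.ix then nmbT T M c j l ν (k.del l) else 0 := by
    unfold cfgT
    have e : (∑ k ∈ kds M l, Multiset.replicate (nmbT T M c j l ν k) k).map (Kd.add l) =
        ∑ k ∈ kds M l, (Multiset.replicate (nmbT T M c j l ν k) k).map (Kd.add l) :=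
      map_sum (Multiset.mapAddMonoidHom (Kd.add l)) _ _
    rw [e, Multiset.count_sum']
    simp only [Multiset.map_replicate, Multiset.count_replicate]
    split_ifs with h2
    · rw [Finset.sum_eq_single (k.del l)]
      · split_ifs with h3
        · rfl
        · by_cases h4 : k.del l ∈ kds M l
          · exact absurd ((add_eq_iff h4).2 ⟨h2, rfl⟩) h3
          · exact (nmbT_of_not h4).symm
      · intro k' hk' hne
        exact if_neg fun h3 => hne ((add_eq_iff hk').1 h3).2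
      · intro h4
        rw [nmbT_of_not h4]
        exact ite_self 0
    · refine Finset.sum_eq_zero fun k' hk' => if_neg fun h3 => h2 ((add_eq_iff hk').1 h3).1
  rw [h1]
  split_ifs with h2
  · have h3 : ∀ ν', nmbT T M c j l ν' k = 0 := fun ν' => nmbT_of_not fun h4 => notMem_ix h4 h2
    rw [nmbT_add hjl h2, h3, h3]
    omega
  · have h3 := nmbT_off (T := T) (M := M) (c := c) hjl hν h2
    omega

end Pool.Agent.VU
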