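import Pool.Agent.VU.AL.NumB
import Pool.Agent.V7.AL.N1

/-!
# VU, block ALPHA: the virtual dimension on the top level, with the slack `T`

As `Pool.Agent.V7.AL.N1`.
-/

set_option autoImplicit false

namespace Pool.Agent.VU

open Finset Pool.Agent.H51.TB Pool.Agent.V7 Pool.Agent.V7.ST

open Classical in
/-- The bound for one kind. -/
theorem nmbT_wt_top {T M c j n ν : ℕ} (hM : 2 ≤ M) (hc : 1 ≤ c) (hn : (2 * M - 1) * c ≤ n) {k : Kd}
    (hk : k ∈ kds M (2 * M - 1)) :
    nmbT T M c j (2 * M - 1) ν k * wt M c n k ≤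
      (if ∃ I, k = Kd.ord M I ∧ I.card = M - 1 ∧ ¬ range j ⊆ I then
        c ^ M / (2 * M - 1).choose M * c ^ (M - 1) else 0) + (T + 1) * c ^ (2 * M - 2) := by

  by_cases h0 : k ∈ kds M (2 * M - 1) ∧ k.In M j ∧ 2 * M - 1 ≤ dgr M k
  swap
  · rw [nmbT_neg h0, zero_mul]
    exact Nat.zero_le _
  rw [nmbT_pos h0.1 h0.2.1 h0.2.2]
  have hok := mem_kds.1 hk
  have hpow : c ^ (M - 1) * c ^ (M - 1) = c ^ (2 * M - 2) := by
    rw [← pow_add]
    congr 1
    omega
  have hcard : ∀ I : Finset ℕ, I ⊆ range (2 * M - 1) → I.card * c ≤ n := by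
    intro I hI
    have h1 := card_le_card hI
    rw [card_range] at h1
    exact (Nat.mul_le_mul_right c h1).trans hn
  cases k with
  | ord μ I =>
    obtain ⟨h1, h2, h3⟩ := hok
    have h4 : 2 * M - 1 ≤ 2 * M - μ + I.card := h0.2.2
    show rhoT T M c (Kd.ord μ I) * (ν - (2 * M - 1 - j)).choose (2 * M - μ + I.card - (2 * M - 1)) *
      bb c (μ - 1) I.card n ≤ _
    rcases Nat.lt_or_ge (μ - 1) I.card with h5 | h5
    · rw [bb_zero c _ _ n (hcard I h3) h5, mul_zero]
      exact Nat.zero_le _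
    · have h6 : I.card = μ - 1 := by omega
      have h7 : 2 * M - μ + I.card - (2 * M - 1) = 0 := by omega
      rw [h7, Nat.choose_zero_right, mul_one, h6, bb_self c _ n (h6 ▸ hcard I h3)]
      by_cases h8 : μ = M
      · subst h8
        have h9 : ∃ I', Kd.ord μ I = Kd.ord μ I' ∧ I'.card = μ - 1 ∧ ¬ range j ⊆ I' :=
          ⟨I, rfl, h6, h0.2.1 rfl⟩
        rw [if_pos h9]
        show (if μ = μ then c ^ μ / (2 * μ - 1).choose μ + T * c ^ (μ - 1) else 1) * c ^ (μ - 1) ≤ _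
        have h10 : T * c ^ (μ - 1) * c ^ (μ - 1) ≤ (T + 1) * c ^ (2 * μ - 2) := by
          rw [mul_assoc, hpow]
          exact Nat.mul_le_mul_right _ (Nat.le_succ T)
        rw [if_pos rfl, add_mul]
        omega
      · show (if μ = M then c ^ M / (2 * M - 1).choose M + T * c ^ (M - 1) else 1) * c ^ (μ - 1) ≤ _
        rw [if_neg h8, one_mul]
        have h9 : c ^ (μ - 1) ≤ c ^ (2 * M - 2) := Nat.pow_le_pow_right hc (by omega)
        have h10 : 1 * c ^ (2 * M - 2) ≤ (T + 1) * c ^ (2 * M - 2) :=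
          Nat.mul_le_mul_right _ (Nat.le_add_left 1 T)
        omega
  | sw i I =>
    obtain ⟨h1, h3'⟩ := hok
    have h3 : I ⊆ range (2 * M - 1) := fun x hx => mem_range.2 (mem_Ico.1 (h3' hx)).2
    have h4 : 2 * M - 1 ≤ M + I.card := h0.2.2
    show T * c ^ (M - 1) * (ν - (2 * M - 1 - j)).choose (M + I.card - (2 * M - 1)) *
      (bb c (M - 1) I.card n - if I = ∅ then 1 else 0) ≤ _
    rcases Nat.lt_or_ge (M - 1) I.card with h5 | h5
    · rw [bb_zero c _ _ n (hcard I h3) h5, Nat.zero_sub, mul_zero]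
      exact Nat.zero_le _
    · have h6 : I.card = M - 1 := by omega
      have h7 : M + I.card - (2 * M - 1) = 0 := by omega
      rw [h7, Nat.choose_zero_right, mul_one, h6, bb_self c _ n (h6 ▸ hcard I h3)]
      have h8 : T * c ^ (M - 1) * (c ^ (M - 1) - if I = ∅ then 1 else 0) ≤ (T + 1) * c ^ (2 * M - 2) := by
        rw [← hpow, ← mul_assoc]
        refine Nat.mul_le_mul ?_ (Nat.sub_le _ _)
        exact Nat.mul_le_mul_right _ (Nat.le_succ T)
      omega

/-- N1 (helper72), file AL/N1.lean -/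
theorem top_lowT (T M j : ℕ) (hM : 2 ≤ M) (hj : j < M) : ∃ c₀ : ℕ, ∀ c, c₀ ≤ c →
    (2 * M - 1).choose M ∣ c → ∀ n ν, (2 * M - 1) * c ≤ n →
    ((c ^ (2 * M - 1) : ℕ) : ℤ) ≤
      2 * ((2 * M - 1).choose M : ℤ) * vd M c (2 * M - 1) n (cfgT T M c j (2 * M - 1) ν) := by
  classical

  refine ⟨2 * (T + 1) * (2 * M - 1).choose M * (kds M (2 * M - 1)).card + 1, fun c hc hdiv n ν hn => ?_⟩
  have hc1 : 1 ≤ c := by omega
  obtain ⟨m, hm⟩ := hdiv
  set C := (2 * M - 1).choose M with hC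
  set K := (kds M (2 * M - 1)).card with hK
  have hCpos : 0 < C := Nat.choose_pos (by omega)
  -- the sum of the weights
  have hsum : ((cfgT T M c j (2 * M - 1) ν).map (wt M c n)).sum ≤
      (C - 1) * (c ^ M / C * c ^ (M - 1)) + K * ((T + 1) * c ^ (2 * M - 2)) := by
    have e1 : ((cfgT T M c j (2 * M - 1) ν).map (wt M c n)).sum =
        ∑ k ∈ kds M (2 * M - 1), nmbT T M c j (2 * M - 1) ν k * wt M c n k := by
      unfold cfgT
      have e : (∑ k ∈ kds M (2 * M - 1), Multiset.replicate (nmbT T M c j (2 * M - 1) ν k) k).map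
          (wt M c n) = ∑ k ∈ kds M (2 * M - 1),
            (Multiset.replicate (nmbT T M c j (2 * M - 1) ν k) k).map (wt M c n) :=
        map_sum (Multiset.mapAddMonoidHom (wt M c n)) _ _
      rw [e]
      have e2 : (∑ k ∈ kds M (2 * M - 1),
          (Multiset.replicate (nmbT T M c j (2 * M - 1) ν k) k).map (wt M c n)).sum =
          ∑ k ∈ kds M (2 * M - 1),
            ((Multiset.replicate (nmbT T M c j (2 * M - 1) ν k) k).map (wt M c n)).sum :=
        map_sum (Multiset.sumAddMonoidHom : Multiset ℕ →+ ℕ) _ _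
      rw [e2]
      refine Finset.sum_congr rfl fun k _ => ?_
      rw [Multiset.map_replicate, Multiset.sum_replicate, smul_eq_mul]
    rw [e1]
    refine (Finset.sum_le_sum fun k hk => nmbT_wt_top (j := j) (ν := ν) hM hc1 hn hk).trans ?_
    rw [Finset.sum_add_distrib, Finset.sum_const, smul_eq_mul, ← Finset.sum_filter,
      Finset.sum_const, smul_eq_mul]
    have h1 := card_top_ord M j hM hj
    have h2 : ((kds M (2 * M - 1)).filter fun k => ∃ I, k = Kd.ord M I ∧ I.card = M - 1 ∧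
        ¬ range j ⊆ I).card ≤ C - 1 := by omega
    exact Nat.add_le_add_right (Nat.mul_le_mul_right _ h2) _
  have hCM : C * (c ^ M / C) = c ^ M := by
    refine Nat.mul_div_cancel' ?_
    exact (Dvd.intro m hm.symm).trans (dvd_pow_self c (by omega))
  have hp1 : c ^ M * c ^ (M - 1) = c ^ (2 * M - 1) := by
    rw [← pow_add]
    congr 1
    omega
  have hp2 : c ^ (2 * M - 1) = c * c ^ (2 * M - 2) := by
    rw [← pow_succ']
    congr 1
    omega
  have hvd : vd M c (2 * M - 1) n (cfgT T M c j (2 * M - 1) ν) =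
      ((c ^ (2 * M - 1) : ℕ) : ℤ) - (((cfgT T M c j (2 * M - 1) ν).map (wt M c n)).sum : ℕ) := by
    unfold vd
    rw [bb_self c (2 * M - 1) n hn]
  rw [hvd]
  set S := ((cfgT T M c j (2 * M - 1) ν).map (wt M c n)).sum with hS
  have h3 : C * S ≤ (C - 1) * c ^ (2 * M - 1) + C * (K * ((T + 1) * c ^ (2 * M - 2))) := by
    calc C * S ≤ C * ((C - 1) * (c ^ M / C * c ^ (M - 1)) + K * ((T + 1) * c ^ (2 * M - 2))) :=
          Nat.mul_le_mul_left _ hsum
      _ = (C - 1) * (C * (c ^ M / C) * c ^ (M - 1)) + C * (K * ((T + 1) * c ^ (2 * M - 2))) := by ring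
      _ = _ := by rw [hCM, hp1]
  have h4 : 2 * (T + 1) * C * K * c ^ (2 * M - 2) ≤ c ^ (2 * M - 1) := by
    rw [hp2]
    exact Nat.mul_le_mul_right _ (by omega)
  set X := c ^ (2 * M - 1) with hX
  set Y := c ^ (2 * M - 2) with hY
  have h5 : 2 * (C * S) ≤ 2 * ((C - 1) * X) + X := by
    have h6 : 2 * (C * (K * ((T + 1) * Y))) = 2 * (T + 1) * C * K * Y := by ring
    omega
  have h6 : (C - 1) * X + X = C * X := by
    rw [← Nat.succ_mul]
    congr 1
    omega
  have h7 : 2 * (C * S) + X ≤ 2 * (C * X) := by omega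
  have h8 : (2 * ((C : ℤ) * S) + X) ≤ 2 * ((C : ℤ) * X) := by exact_mod_cast h7
  linarith

end Pool.Agent.VU
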