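import Pool.Agent.VU.KDefs
import Pool.Agent.V7.AL.N5

/-!
# VU: the class against the chain
-/

set_option autoImplicit false
set_option linter.unusedSectionVars false

namespace Pool.Agent.VU

open Finset Pool.Agent.H51.TB Pool.Agent.V7 Pool.Agent.V7.ST

private theorem N5_pos {T M c j l ν : ℕ} {k : Kd} (h : k ∈ kds M l) (h' : k.In M j)
    (h'' : l ≤ dgr M k) : nmbT T M c j l ν k = rhoT T M c k * (ν - (l - j)).choose (dgr M k - l) :=
  if_pos ⟨h, h', h''⟩

private theorem N5_count (T M c j l ν : ℕ) (k : Kd) :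
    (cfgT T M c j l ν).count k = nmbT T M c j l ν k := by
  unfold cfgT
  rw [Multiset.count_sum']
  simp only [Multiset.count_replicate]
  rw [Finset.sum_ite_eq']
  split_ifs with h
  · rfl
  · exact (if_neg fun h1 => h h1.1).symm

/-- powers of `c + t` and `c` -/
private theorem N5_pow {M t c : ℕ} (hM : 1 ≤ M) (hc : 4 * M * t + 1 ≤ c) :
    3 * ((c + t : ℕ) : ℝ) ^ (M - 1) ≤ 4 * (c : ℝ) ^ (M - 1) := by
  have hc0 : (0 : ℝ) < (c : ℝ) := by exact_mod_cast (by omega : 0 < c)
  have ht0 : (0 : ℝ) ≤ (t : ℝ) := Nat.cast_nonneg t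
  set X : ℝ := (c : ℝ) + t with hX
  have hX0 : 0 < X := by positivity
  have hcX : (c : ℝ) = X * (1 + -(t / X)) := by
    rw [hX]
    field_simp
    ring
  have h1 : ((4 * M * t + 1 : ℕ) : ℝ) ≤ (c : ℝ) := by exact_mod_cast hc
  push_cast at h1
  have hM1 : (1 : ℝ) ≤ M := by exact_mod_cast hM
  have h2 : (M : ℝ) * (t / X) ≤ 1 / 4 := by
    rw [← mul_div_assoc, div_le_iff₀ hX0, hX]
    nlinarith
  have h3 : (0 : ℝ) ≤ t / X := by positivity
  have h4 : -2 ≤ -(t / X) := by nlinarith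
  have h5 := one_add_mul_le_pow h4 (M - 1)
  have h6 : ((M - 1 : ℕ) : ℝ) ≤ M := by exact_mod_cast Nat.sub_le M 1
  have h7 : (3 : ℝ) / 4 ≤ (1 + -(t / X)) ^ (M - 1) := by
    refine le_trans ?_ h5
    have h8 : ((M - 1 : ℕ) : ℝ) * (t / X) ≤ M * (t / X) := mul_le_mul_of_nonneg_right h6 h3
    linarith
  have h8 : (c : ℝ) ^ (M - 1) = X ^ (M - 1) * (1 + -(t / X)) ^ (M - 1) := by
    rw [hcX, mul_pow]
  have h9 : 0 < X ^ (M - 1) := pow_pos hX0 _
  push_cast
  rw [h8]
  nlinarith

private theorem N5_pow' {M t c : ℕ} (hM : 1 ≤ M) (hc : 4 * M * t + 1 ≤ c) :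
    ((c + t : ℕ) : ℝ) ^ M ≤ (c : ℝ) ^ M + 2 * t * M * (c : ℝ) ^ (M - 1) := by
  have h1 := N5_pow hM hc
  have hc0 : (0 : ℝ) ≤ (c : ℝ) := Nat.cast_nonneg _
  have ht0 : (0 : ℝ) ≤ (t : ℝ) := Nat.cast_nonneg t
  have hM0 : (0 : ℝ) ≤ (M : ℝ) := Nat.cast_nonneg M
  have h2 : ∀ k : ℕ, ((c : ℝ) + t) ^ k ≤ (c : ℝ) ^ k + k * t * ((c : ℝ) + t) ^ (k - 1) := by
    intro k
    induction k with
    | zero => simp
    | succ k ih =>
      rcases Nat.eq_zero_or_pos k with hk | hk
      · rw [hk]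
        simp
      · have e1 : ((c : ℝ) + t) ^ k = ((c : ℝ) + t) ^ (k - 1) * ((c : ℝ) + t) := by
          rw [← pow_succ]
          congr 1
          omega
        rw [Nat.add_sub_cancel, pow_succ, pow_succ]
        push_cast
        have e2 : (c : ℝ) ^ k ≤ ((c : ℝ) + t) ^ k := pow_le_pow_left₀ hc0 (by linarith) k
        have e3 : (0 : ℝ) ≤ ((c : ℝ) + t) := by linarith
        calc ((c : ℝ) + t) ^ k * ((c : ℝ) + t) = ((c : ℝ) + t) ^ k * c + ((c : ℝ) + t) ^ k * t := by
              ring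
          _ ≤ ((c : ℝ) ^ k + k * t * ((c : ℝ) + t) ^ (k - 1)) * c + ((c : ℝ) + t) ^ k * t :=
              add_le_add (mul_le_mul_of_nonneg_right ih hc0) le_rfl
          _ ≤ (c : ℝ) ^ k * c + k * t * (((c : ℝ) + t) ^ (k - 1) * ((c : ℝ) + t)) +
              ((c : ℝ) + t) ^ k * t := by
              have e4 : (0 : ℝ) ≤ k * t * ((c : ℝ) + t) ^ (k - 1) * t := by positivity
              nlinarith
          _ = (c : ℝ) ^ k * c + ((k : ℝ) + 1) * t * ((c : ℝ) + t) ^ k := by
              rw [← e1]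
              ring
  have h3 := h2 M
  have h4 : (M : ℝ) * t * ((c : ℝ) + t) ^ (M - 1) ≤ 2 * t * M * (c : ℝ) ^ (M - 1) := by
    have h5 : ((c : ℝ) + t) ^ (M - 1) ≤ 2 * (c : ℝ) ^ (M - 1) := by
      have h6 : (0 : ℝ) ≤ (c : ℝ) ^ (M - 1) := by positivity
      push_cast at h1
      linarith
    calc (M : ℝ) * t * ((c : ℝ) + t) ^ (M - 1) ≤ (M : ℝ) * t * (2 * (c : ℝ) ^ (M - 1)) :=
          mul_le_mul_of_nonneg_left h5 (by positivity)
      _ = 2 * t * M * (c : ℝ) ^ (M - 1) := by ring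
  push_cast
  linarith

/-- The bound of the number of the points of a kind in a class. -/
private theorem N5_kind (M j t T : ℕ) (hM : 2 ≤ M) (hj : j < M) (hT : 2 * t * M + 3 ≤ T) (c : ℕ)
    (hc : 4 * M * t + 1 ≤ c) (hdiv : (2 * M - 1).choose M ∣ c) (k : Kd) :
    ∃ e : ℝ, 0 < e ∧ ∃ n₀ : ℕ, ∀ n, n₀ ≤ n →
    ∀ e' : ℝ, e' ≤ e → ∀ N : Kd → ℕ, Cls0 M (c + t) j n e' N → N (Kd.ord M (range j)) = 0 →
      N k ≤ nmbT T M c j j (n / (c + t)) k := by
  by_cases hk : k ∈ kds M j
  swap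
  · refine ⟨1, one_pos, 0, fun n _ e' _ N hN _ => ?_⟩
    have h1 : N k = 0 := by
      by_contra h
      exact hk (hN.ok k h)
    omega
  have hM1 : 1 ≤ M := by omega
  have hct : 1 ≤ c + t := by omega
  have hCpos : 0 < (2 * M - 1).choose M := Nat.choose_pos (by omega)
  have hC0 : (0 : ℝ) < ((2 * M - 1).choose M : ℝ) := by exact_mod_cast hCpos
  have hC1 : (1 : ℝ) ≤ ((2 * M - 1).choose M : ℝ) := by exact_mod_cast hCpos
  have hc0 : (0 : ℝ) < (c : ℝ) := by exact_mod_cast (by omega : 0 < c)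
  have hct0 : (0 : ℝ) < ((c + t : ℕ) : ℝ) := by exact_mod_cast (by omega : 0 < c + t)
  have hp1 := N5_pow hM1 hc
  have hp2 := N5_pow' hM1 hc
  have hcM : (0 : ℝ) < (c : ℝ) ^ (M - 1) := by positivity
  have hTr : (2 : ℝ) * t * M + 3 ≤ (T : ℝ) := by exact_mod_cast hT
  have hk' := mem_kds.1 hk
  -- the nominal density
  have hnom : ∀ I : Finset ℕ, I ⊆ range j →
      nom M (c + t) j I * (((c + t : ℕ) : ℝ) ^ (M + I.card - j) *
        ((M + I.card - j).factorial : ℝ)) =
        ((c + t : ℕ) : ℝ) ^ M / ((2 * M - 1).choose M : ℝ) := by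
    intro I hI
    have h1 : I.card ≤ j := by
      have := card_le_card hI
      rwa [card_range] at this
    have h2 : ((c + t : ℕ) : ℝ) ^ M =
        ((c + t : ℕ) : ℝ) ^ (j - I.card) * ((c + t : ℕ) : ℝ) ^ (M + I.card - j) := by
      rw [← pow_add]
      congr 1
      omega
    have h3 : ((M + I.card - j).factorial : ℝ) ≠ 0 := by exact_mod_cast Nat.factorial_ne_zero _
    rw [h2]
    unfold nom
    field_simp
  have hnom0 : ∀ I : Finset ℕ, 0 ≤ nom M (c + t) j I := by
    intro I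
    unfold nom
    positivity
  cases k with
  | ord μ I =>
    obtain ⟨hμ1, hμM, hI⟩ := hk'
    have h1 : I.card ≤ j := by
      have := card_le_card hI
      rwa [card_range] at this
    rcases Nat.lt_or_ge μ M with hμ | hμ
    · -- small multiplicity
      obtain ⟨e, he, n₀, h⟩ := choose_large (c + t) (2 * M - μ + I.card - j) hct 0 1 le_rfl
        (by simp)
      refine ⟨e, he, n₀, fun n hn e' he' N hN _ => ?_⟩
      have h2 := hN.sml μ hμ1 hμ I hI
      have h3 := h n hn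
      have h4 : nmbT T M c j j (n / (c + t)) (Kd.ord μ I) =
          (n / (c + t)).choose (2 * M - μ + I.card - j) := by
        rw [N5_pos hk (fun h => absurd h hμ.ne) (show j ≤ 2 * M - μ + I.card by omega)]
        show (if μ = M then _ else 1) * _ = _
        rw [if_neg hμ.ne, one_mul, Nat.sub_self, Nat.sub_zero]
        rfl
      rw [h4]
      have h5 : (N (Kd.ord μ I) : ℝ) ≤
          ((n / (c + t)).choose (2 * M - μ + I.card - j) : ℝ) := by
        refine h2.trans (le_trans ?_ (h3.trans (le_of_eq (one_mul _))))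
        refine mul_le_mul_of_nonneg_right ?_ (by positivity)
        linarith
      exact_mod_cast h5
    · obtain rfl : μ = M := le_antisymm hμM hμ
      by_cases hIj : I = range j
      · refine ⟨1, one_pos, 0, fun n _ e' _ N _ h0 => ?_⟩
        rw [hIj, h0]
        exact Nat.zero_le _
      · have hdvd : (2 * μ - 1).choose μ ∣ c ^ μ := dvd_pow hdiv (by omega)
        have hcast : (((c ^ μ / (2 * μ - 1).choose μ + T * c ^ (μ - 1) : ℕ)) : ℝ) =
            (c : ℝ) ^ μ / ((2 * μ - 1).choose μ : ℝ) + T * (c : ℝ) ^ (μ - 1) := by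
          rw [Nat.cast_add, Nat.cast_div hdvd hC0.ne']
          push_cast
          rfl
        have hlt : ((c + t : ℕ) : ℝ) ^ μ / ((2 * μ - 1).choose μ : ℝ) <
            (c : ℝ) ^ μ / ((2 * μ - 1).choose μ : ℝ) + T * (c : ℝ) ^ (μ - 1) := by
          have h3 : 2 * (t : ℝ) * μ * (c : ℝ) ^ (μ - 1) / ((2 * μ - 1).choose μ : ℝ) ≤
              2 * t * μ * (c : ℝ) ^ (μ - 1) :=
            div_le_self (by positivity) hC1
          have h4 : 2 * (t : ℝ) * μ * (c : ℝ) ^ (μ - 1) < T * (c : ℝ) ^ (μ - 1) :=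
            mul_lt_mul_of_pos_right (by linarith) hcM
          calc ((c + t : ℕ) : ℝ) ^ μ / ((2 * μ - 1).choose μ : ℝ)
              ≤ ((c : ℝ) ^ μ + 2 * t * μ * (c : ℝ) ^ (μ - 1)) / ((2 * μ - 1).choose μ : ℝ) :=
                div_le_div_of_nonneg_right hp2 hC0.le
            _ = (c : ℝ) ^ μ / ((2 * μ - 1).choose μ : ℝ) +
                2 * t * μ * (c : ℝ) ^ (μ - 1) / ((2 * μ - 1).choose μ : ℝ) := add_div _ _ _
            _ < _ := by linarith
        obtain ⟨e, he, n₀, h⟩ := choose_large (c + t) (μ + I.card - j) hct (nom μ (c + t) j I)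
          ((c ^ μ / (2 * μ - 1).choose μ + T * c ^ (μ - 1) : ℕ) : ℝ) (hnom0 I) (by
            rw [hnom I hI, hcast]
            exact hlt)
        refine ⟨e, he, n₀, fun n hn e' he' N hN _ => ?_⟩
        have h2 := hN.big I hI hIj
        have h3 := h n hn
        have h4 : nmbT T μ c j j (n / (c + t)) (Kd.ord μ I) =
            (c ^ μ / (2 * μ - 1).choose μ + T * c ^ (μ - 1)) *
              (n / (c + t)).choose (μ + I.card - j) := by
          rw [N5_pos hk (fun _ h => hIj (subset_antisymm hI h))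
            (show j ≤ 2 * μ - μ + I.card by omega)]
          show (if μ = μ then _ else 1) * _ = _
          rw [if_pos rfl, Nat.sub_self, Nat.sub_zero]
          congr 2
          show 2 * μ - μ + I.card - j = _
          omega
        rw [h4]
        have h5 : (N (Kd.ord μ I) : ℝ) ≤ (tot μ j N I : ℝ) := by
          unfold tot
          exact_mod_cast Nat.le_add_right _ _
        have h6 := (abs_le.1 h2).2
        have h7 : (N (Kd.ord μ I) : ℝ) ≤
            ((c ^ μ / (2 * μ - 1).choose μ + T * c ^ (μ - 1) : ℕ) : ℝ) *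
            ((n / (c + t)).choose (μ + I.card - j) : ℝ) := by
          refine le_trans ?_ h3
          have h8 : e' * (n : ℝ) ^ (μ + I.card - j) ≤ e * (n : ℝ) ^ (μ + I.card - j) :=
            mul_le_mul_of_nonneg_right he' (by positivity)
          rw [add_mul]
          linarith
        exact_mod_cast h7
  | sw i I =>
    obtain ⟨hi, hI⟩ := hk'
    have hI' : I ⊆ range j := fun x hx => by
      have := mem_Ico.1 (hI hx)
      rw [mem_range]
      exact this.2
    have h1 : I.card ≤ j := by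
      have := card_le_card hI'
      rwa [card_range] at this
    have hpow : ((c + t : ℕ) : ℝ) ^ M = ((c + t : ℕ) : ℝ) ^ (M - 1) * ((c + t : ℕ) : ℝ) := by
      rw [← pow_succ]
      congr 1
      omega
    obtain ⟨e, he, n₀, h⟩ := choose_large (c + t) (M + I.card - j) hct
      (2 * ((2 * M - 1).choose M : ℝ) / ((c + t : ℕ) : ℝ) * nom M (c + t) j I)
      ((T * c ^ (M - 1) : ℕ) : ℝ) (by have := hnom0 I; positivity) (by
        have h2 : 2 * ((2 * M - 1).choose M : ℝ) / ((c + t : ℕ) : ℝ) * nom M (c + t) j I *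
            (((c + t : ℕ) : ℝ) ^ (M + I.card - j) * ((M + I.card - j).factorial : ℝ)) =
            2 * ((c + t : ℕ) : ℝ) ^ (M - 1) := by
          rw [mul_assoc, hnom I hI', hpow]
          field_simp
        rw [h2]
        push_cast at hp1 ⊢
        have h3 : (3 : ℝ) * (c : ℝ) ^ (M - 1) ≤ T * (c : ℝ) ^ (M - 1) :=
          mul_le_mul_of_nonneg_right (by
            have : (0 : ℝ) ≤ 2 * (t : ℝ) * M := by positivity
            linarith) hcM.le
        linarith)
    refine ⟨e, he, n₀, fun n hn e' he' N hN _ => ?_⟩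
    have h2 := hN.swp i hi I hI'
    have h3 := h n hn
    have h4 : nmbT T M c j j (n / (c + t)) (Kd.sw i I) =
        (T * c ^ (M - 1)) * (n / (c + t)).choose (M + I.card - j) := by
      rw [N5_pos hk hi (show j ≤ M + I.card by omega)]
      rw [Nat.sub_self, Nat.sub_zero]
      rfl
    rw [h4]
    have h7 : (N (Kd.sw i I) : ℝ) ≤ ((T * c ^ (M - 1) : ℕ) : ℝ) *
        ((n / (c + t)).choose (M + I.card - j) : ℝ) := by
      refine h2.trans (le_trans ?_ h3)
      refine mul_le_mul_of_nonneg_right ?_ (by positivity)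
      linarith
    exact_mod_cast h7

/-- A2 (Pool/Agent/VU/AL/N5.lean), as V7 `cls_le_cfg`: the class for blocks of size `c + t` against the
configuration for blocks of size `c`. -/
theorem cls_le_cfgT (M j t T : ℕ) (hM : 2 ≤ M) (hj : j < M) (hT : 2 * t * M + 3 ≤ T) :
    ∃ c₀ : ℕ, ∀ c, c₀ ≤ c → (2 * M - 1).choose M ∣ c → ∃ e : ℝ, 0 < e ∧ ∃ n₀ : ℕ, ∀ n, n₀ ≤ n →
      ∀ s : Multiset Kd, Cls0 M (c + t) j n e (fun τ => s.count τ) → Kd.ord M (range j) ∉ s →
        s ≤ cfgT T M c j j (n / (c + t)) := by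
  refine ⟨4 * M * t + 1, fun c hc hdiv => ?_⟩
  choose e he n₀ h using N5_kind M j t T hM hj hT c hc hdiv
  refine ⟨1 / (1 + ∑ k ∈ kds M j, 1 / e k), ?_, ∑ k ∈ kds M j, n₀ k, fun n hn s hs hns => ?_⟩
  · have : 0 ≤ ∑ k ∈ kds M j, 1 / e k := sum_nonneg fun k _ => (one_div_pos.2 (he k)).le
    positivity
  rw [Multiset.le_iff_count]
  intro k
  rw [N5_count]
  by_cases hk : s.count k = 0
  · rw [hk]
    exact Nat.zero_le _
  have hkk : k ∈ kds M j := hs.ok k hk
  refine h k n ((single_le_sum (f := n₀) (fun _ _ => Nat.zero_le _) hkk).trans hn) _ ?_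
    (fun τ => s.count τ) hs (Multiset.count_eq_zero_of_notMem hns)
  have h1 : 1 / e k ≤ ∑ k ∈ kds M j, 1 / e k :=
    single_le_sum (f := fun k => 1 / e k) (fun k _ => (one_div_pos.2 (he k)).le) hkk
  have h2 : 0 < 1 / e k := one_div_pos.2 (he k)
  rw [one_div_le (by linarith) (he k)]
  linarith

end Pool.Agent.VU
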