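import Pool.Agent.VU.AL.ChainA
import Pool.Agent.V7.AL.NumB

/-!
# VU, block ALPHA: bounds for the numbers of the chain with the slack `T`

As `Pool.Agent.V7.AL.NumB`.
-/

set_option autoImplicit false

namespace Pool.Agent.VU

open Finset Pool.Agent.H51.TB Pool.Agent.V7 Pool.Agent.V7.ST

theorem rhoT_le {T M c : ℕ} (hM : 1 ≤ M) (hc : 1 ≤ c) (k : Kd) :
    rhoT T M c k ≤ (T + 1) * c ^ M := by
  have h1 : T * c ^ (M - 1) ≤ T * c ^ M :=
    Nat.mul_le_mul_left _ (Nat.pow_le_pow_right hc (by omega))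
  have h2 : 1 ≤ c ^ M := Nat.one_le_pow _ _ hc
  have h0 : (T + 1) * c ^ M = T * c ^ M + c ^ M := by ring
  cases k with
  | ord μ I =>
    show (if μ = M then c ^ M / (2 * M - 1).choose M + T * c ^ (M - 1) else 1) ≤ (T + 1) * c ^ M
    have h3 := Nat.div_le_self (c ^ M) ((2 * M - 1).choose M)
    split_ifs <;> omega
  | sw i I =>
    show T * c ^ (M - 1) ≤ (T + 1) * c ^ M
    omega

theorem nmbT_le {T M c j l ν : ℕ} (hM : 1 ≤ M) (hc : 1 ≤ c) (k : Kd) :
    nmbT T M c j l ν k ≤ (T + 1) * 2 ^ ν * c ^ M := by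
  unfold nmbT
  split_ifs
  · have h1 := rhoT_le (T := T) hM hc k
    have h2 : (ν - (l - j)).choose (dgr M k - l) ≤ 2 ^ ν :=
      (Nat.choose_le_two_pow _ _).trans (Nat.pow_le_pow_right (by norm_num) (by omega))
    calc rhoT T M c k * (ν - (l - j)).choose (dgr M k - l) ≤ ((T + 1) * c ^ M) * 2 ^ ν :=
          Nat.mul_le_mul h1 h2
      _ = _ := by ring
  · exact Nat.zero_le _

theorem sum_wt_cfgT (T M c j l ν n : ℕ) :
    ((cfgT T M c j l ν).map (wt M c n)).sum = ∑ k ∈ kds M l, nmbT T M c j l ν k * wt M c n k := by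
  unfold cfgT
  have e : (∑ k ∈ kds M l, Multiset.replicate (nmbT T M c j l ν k) k).map (wt M c n) =
      ∑ k ∈ kds M l, (Multiset.replicate (nmbT T M c j l ν k) k).map (wt M c n) :=
    map_sum (Multiset.mapAddMonoidHom (wt M c n)) _ _
  rw [e]
  have e2 : (∑ k ∈ kds M l, (Multiset.replicate (nmbT T M c j l ν k) k).map (wt M c n)).sum =
      ∑ k ∈ kds M l, ((Multiset.replicate (nmbT T M c j l ν k) k).map (wt M c n)).sum :=
    map_sum (Multiset.sumAddMonoidHom : Multiset ℕ →+ ℕ) _ _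
  rw [e2]
  refine Finset.sum_congr rfl fun k _ => ?_
  rw [Multiset.map_replicate, Multiset.sum_replicate, smul_eq_mul]

/-- The virtual dimension is at least `- const * c ^ (2M-1)`. -/
theorem vd_lowT {T M c j l ν n : ℕ} (hM : 1 ≤ M) (hc : 1 ≤ c) (hn : n ≤ c * (ν + 1)) :
    -(((kds M l).card * ((T + 1) * 2 ^ ν) * (ν + 1 + M) ^ (M - 1) * c ^ (2 * M - 1) : ℕ) : ℤ) ≤
      vd M c l n (cfgT T M c j l ν) := by
  unfold vd
  have h1 : ((cfgT T M c j l ν).map (wt M c n)).sum ≤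
      (kds M l).card * ((T + 1) * 2 ^ ν) * (ν + 1 + M) ^ (M - 1) * c ^ (2 * M - 1) := by
    rw [sum_wt_cfgT]
    have h2 : ∀ k ∈ kds M l, nmbT T M c j l ν k * wt M c n k ≤
        (T + 1) * 2 ^ ν * (ν + 1 + M) ^ (M - 1) * c ^ (2 * M - 1) := by
      intro k hk
      have h3 := nmbT_le (T := T) (j := j) (l := l) (ν := ν) hM hc k
      have h4 := wt_le hM hc hn (mem_kds.1 hk)
      have h5 : c ^ (2 * M - 1) = c ^ M * c ^ (M - 1) := by
        rw [← pow_add]
        congr 1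
        omega
      calc nmbT T M c j l ν k * wt M c n k ≤
          ((T + 1) * 2 ^ ν * c ^ M) * ((ν + 1 + M) ^ (M - 1) * c ^ (M - 1)) := Nat.mul_le_mul h3 h4
        _ = _ := by
          rw [h5]
          ring
    refine (Finset.sum_le_card_nsmul _ _ _ h2).trans (le_of_eq ?_)
    rw [smul_eq_mul]
    ring
  have h2 : (0 : ℤ) ≤ (bb c (2 * M - 1) l n : ℤ) := Int.natCast_nonneg _
  have h3 : ((((cfgT T M c j l ν).map (wt M c n)).sum : ℕ) : ℤ) ≤
      (((kds M l).card * ((T + 1) * 2 ^ ν) * (ν + 1 + M) ^ (M - 1) * c ^ (2 * M - 1) : ℕ) : ℤ) := by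
    exact_mod_cast h1
  omega

/-- Additivity of the virtual dimensions of the chainT. -/
theorem vd_chainT {T M c j l n ν : ℕ} (hc : 0 < c) (hjl : j ≤ l) (hν : l ≤ ν + j)
    (hn : (l + 1) * c + 1 ≤ n) :
    vd M c l n (cfgT T M c j l (ν + 1)) =
      vd M c l (n - c) (cfgT T M c j l ν) + vd M c (l + 1) n (cfgT T M c j (l + 1) (ν + 1)) := by
  have h1 := vd_res (M := M) hc hn (cfgT T M c j l ν) (cfgT T M c j l (ν + 1) - cfgT T M c j l ν) 0
    fun k hk => (mem_cfgT hk).1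
  rw [Multiset.replicate_zero, Multiset.replicate_zero, add_zero, add_zero, cfgT_step hjl hν,
    add_tsub_cancel_of_le cfgT_mono, Nat.cast_zero, add_zero] at h1
  omega

end Pool.Agent.VU
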